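import Pool.Agent.K6.H34.TT.StmX

/-!
# Project TQ (helper34): the second moment of `2 ^ rank` for the curves with full 2-torsion

The average of `4 ^ rank` over all the curves with full 2-torsion, ordered by height, is bounded.
Continues the project TT (first moment). Since the second moment of the number of the 2-coverings is
the largest bounded one, `4` is the natural limit of the method.
-/

set_option autoImplicit false

namespace Pool.Agent.K6.H34.TQ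

open Finset Pool.Agent.W262.RK Pool.Agent.W307.RT Pool.Agent.K6.H34.TT

/-- the average of `NL ^ 2` over the signs -/
noncomputable def NR2 (s : Fin 3 → ℕ) : ℝ :=
  (1 / 2) ^ (∏ j, s j).primeFactors.card *
    ∑ E ∈ (∏ j, s j).primeFactors.powerset, (NL (∏ j, s j) (LR s E) : ℝ) ^ 2

/-- MAR2: the average of `NR2` -/
def MAR2 : Prop := ∀ c : ℕ, ∃ z0 : ℕ, ∀ z, z0 ≤ z → ∃ C : ℝ, ∀ y, z < y →
  ∑ s ∈ Tup (Fin 3) z y, NR2 s * ∏ j, gw 1 c (s j) ≤ C * (Real.log y) ^ 3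

/-- SUBR2: adding primes -/
def SUBR2 : Prop := ∀ z y : ℕ, 2 ≤ z → ∀ s e : Fin 3 → ℕ, (fun j => s j * e j) ∈ Tup (Fin 3) z y →
  NR2 (fun j => s j * e j) ≤ 16 ^ (∑ j, (e j).primeFactors.card) * NR2 s

/-- ANT16: `Pool.Agent.W307.RT.ANT` with `16` in place of `4`. (Copy of
`Pool.Agent.W45.RT.ANT` and of its parts `Pool.Agent.W405.RK2.RS`, `rv` of
`Pool.Agent.W591.RK2.RVRU` with the constants `16` in place of `4`, `32` in place of `8`.) -/
def ANT16 : Prop := ∀ (J : Type) [Fintype J] [DecidableEq J] (Ω : Type) (T : ℕ → Finset Ω)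
  (f : Ω → J → ℤ) (S : ℕ → ℝ) (z : ℕ) (G : (J → ℕ) → ℝ) (R : Ω → ℝ) (C C' D : ℝ) (K y0 : ℕ),
  2 * Fintype.card J + 2 ≤ z → (∀ X Y, X ≤ Y → T X ⊆ T Y) → (∀ X, 1 ≤ X → 1 ≤ S X) →
  (∀ X, ∀ ω ∈ T X, Gd z (f ω)) → (∀ s, 0 ≤ G s) → (∀ ω, 0 ≤ R ω) → 0 ≤ C → 1 ≤ D → 1 ≤ K →
  (∀ y, z < y → ∀ s e : J → ℕ, (fun j => s j * e j) ∈ Tup J z y →
    G (fun j => s j * e j) ≤ 16 ^ (∑ j, (e j).primeFactors.card) * G s) →
  (∀ y, z < y → ∑ s ∈ Tup J z y, G s * ∏ j, gw 1 (Fintype.card J) (s j) ≤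
    C' * (Real.log y) ^ (Fintype.card J)) →
  (∀ X y Y k : ℕ, y0 ≤ y → z < y → y ^ K ≤ X → X < (y + 1) ^ k → ∀ s ∈ Tup J z y,
    ∀ v ∈ Tup J z y, ∀ u ∈ Tup J y Y, (∏ j, s j * v j * u j) ^ 8 ≤ X →
    ∀ T' : Finset Ω, T' ⊆ T X → (∀ ω ∈ T', S1 z y (f ω) = s ∧ S2 z y (f ω) = v ∧
      ∀ j, (u j : ℤ) ∣ f ω j) →
    ∑ ω ∈ T', R ω ≤
      C * D ^ k * S X * (G s * ∏ j, gw 1 (Fintype.card J) (s j)) *
        (∏ j, 16 ^ (v j).primeFactors.card * (gw 1 (Fintype.card J) (v j) / v j)) *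
        (∏ j, 1 / (u j : ℝ)) / (Real.log y) ^ (Fintype.card J)) →
  ∃ C2 : ℝ, ∀ X : ℕ, 1 ≤ X → ∑ ω ∈ T X, R ω ≤ C2 * S X

/-- AVGR2: the average over the coprime pairs in a quadrant and their twists. -/
def AVGR2 : Prop := ∀ α β : Fin 3 → ℤ, (∀ j, α j ≠ 0) → (∀ j l, j ≠ l → Res α β j l ≠ 0) →
  α 0 - α 1 = α 2 → β 0 - β 1 = β 2 → ∃ C : ℝ, 0 ≤ C ∧ ∀ X : ℕ, 1 ≤ X →
    ∑ t ∈ ((Icc 1 X) ×ˢ (Icc 1 (X ^ 2)) ×ˢ (Icc 1 (X ^ 2))).filter (fun t : ℕ × ℕ × ℕ =>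
      t.1 * t.2.1 ≤ X ^ 2 ∧ t.1 * t.2.2 ≤ X ^ 2 ∧ t.2.1.Coprime t.2.2 ∧
        ∀ j, fv α β (t.2.1 : ℤ) (t.2.2 : ℤ) j ≠ 0),
      (4 : ℝ) ^ Module.finrank ℤ (EAB (t.1 * fv α β (t.2.1 : ℤ) (t.2.2 : ℤ) 0)
        (t.1 * fv α β (t.2.1 : ℤ) (t.2.2 : ℤ) 1)).toAffine.Point ≤ C * X ^ 4

/-- BOX2: the average over all the pairs in a box. From `AVGR2` and `OMG`, copy of
`Pool.Agent.K6.H25.TT.Box` with `4 ^ rank` in place of `2 ^ rank`. -/
def BOX2 : Prop := ∃ C : ℝ, 0 ≤ C ∧ ∀ N : ℕ, 1 ≤ N →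
  ∑ t ∈ ((Icc (-(N : ℤ)) N) ×ˢ (Icc (-(N : ℤ)) N)).filter
      (fun t : ℤ × ℤ => t.1 ≠ 0 ∧ t.2 ≠ 0 ∧ t.1 ≠ t.2),
    (4 : ℝ) ^ Module.finrank ℤ (EAB t.1 t.2).toAffine.Point ≤ C * N ^ 2

/-! ### the index set of the second moment -/

/-- the direction of the class -/
def ec (c : Fin 3) : Bool × Bool :=
  if c = 0 then (true, true) else if c = 1 then (true, false) else (false, true)

/-- the allowed pairs of a vector and a character for one copy -/
def A1 (c : Fin 3) (v x : Bool × Bool) : Bool :=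
  (decide (v = (false, false)) || decide (v = ec c)) &&
    (decide (x = (false, false)) || decide (x = (ec c).swap))

/-- both nontrivial -/
def pr (v x : Bool × Bool) : Bool := decide (v ≠ (false, false)) && decide (x ≠ (false, false))

/-- the allowed types for the class `c` and the two copies -/
def A6 (c : Fin 3) (v x : (Bool × Bool) × (Bool × Bool)) : Bool :=
  A1 c v.1 x.1 && A1 c v.2 x.2 && !(xor (pr v.1 x.1) (pr v.2 x.2))

/-- the index set: `(j, (v, v'), (χ, χ'))` -/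
def I6 : Type := {i : Fin 3 × ((Bool × Bool) × (Bool × Bool)) × ((Bool × Bool) × (Bool × Bool)) //
  A6 i.1 i.2.1 i.2.2 = true}

instance : Fintype I6 := by unfold I6; infer_instance

instance : DecidableEq I6 := fun a b => decidable_of_iff (a.1 = b.1) Subtype.ext_iff.symm

/-- the pairing -/
def br (x v : Bool × Bool) : Bool := xor (x.1 && v.1) (x.2 && v.2)

/-- the symbol `(d i / d i')` occurs if `χ_{i'}(v_i) χ'_{i'}(v'_i)` is not trivial -/
def L6 (i i' : I6) : Bool := xor (br i'.1.2.2.1 i.1.2.1.1) (br i'.1.2.2.2 i.1.2.1.2)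

/-- COMB6: the largest unlinked set has `12` elements. For each class there are ten types `(V, X)`
with `V, X ∈ F₂²`, `V · X = 0`; types `(V, X)`, `(V', X')` of different classes are unlinked if and
only if `X · V' = X' · V`; the nine nonzero types form a `3 x 3` grid (the hyperbolic quadric in
`PG(3, 2)`), where unlinked = in the same row or column or equal. Let `U₀, U₁, U₂` be the nonzero
types of `U` of the three classes; claim `|U₀| + |U₁| + |U₂| ≤ 9`. Trivial if only one is nonempty.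
If `U₀` contains two points not in a line, then `U₁`, `U₂` are in the two other corners of the
rectangle, `|U₁| = 2` forces `|U₀| ≤ 2`, `U₂ = ∅`, and `|U₁|, |U₂| ≤ 1` gives `|U₀| ≤ 5`, total `≤ 7`.
If all of `U₀, U₁, U₂` are in lines then each has at most three points. -/
def COMB6 : Prop := ∀ U : Finset I6, (∀ i ∈ U, ∀ j ∈ U, L6 i j = L6 j i) → U.card ≤ 12

end Pool.Agent.K6.H34.TQ
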