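import Pool.Agent.K6.H34.TT.Mar
import Pool.Agent.K6.H34.TQ.Stm

/-!
# Project TQ, part MAR2: the average of `NR2`

Adapted from `Pool.Agent.K6.H34.TT.Mar` and `Pool.Agent.W762.RK2.EXP4b` of the starting library.
-/

set_option autoImplicit false

namespace Pool.Agent.K6.H34.TQ

open Finset Pool.Agent.W262.RK Pool.Agent.W108.RK Pool.Agent.W762.RK2 Pool.Agent.K6.H34.TT

variable {z y : ℕ}

/-- the vectors of the two copies -/
abbrev Bt : Type := (Bool × Bool) × (Bool × Bool)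

/-- the first copy -/
def f1 (ξ : Pr z y → Option (Fin 3 × Bt)) : Pr z y → Option (Fin 3 × (Bool × Bool)) :=
  fun p => (ξ p).map fun a => (a.1, a.2.1)

/-- the second copy -/
def f2 (ξ : Pr z y → Option (Fin 3 × Bt)) : Pr z y → Option (Fin 3 × (Bool × Bool)) :=
  fun p => (ξ p).map fun a => (a.1, a.2.2)

lemma map_f1 (ξ : Pr z y → Option (Fin 3 × Bt)) (p : Pr z y) :
    (f1 ξ p).map Prod.fst = (ξ p).map Prod.fst := by
  unfold f1
  cases ξ p <;> rfl

lemma map_f2 (ξ : Pr z y → Option (Fin 3 × Bt)) (p : Pr z y) :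
    (f2 ξ p).map Prod.fst = (ξ p).map Prod.fst := by
  unfold f2
  cases ξ p <;> rfl

lemma SS_f (ξ : Pr z y → Option (Fin 3 × Bt)) : SS (f2 ξ) = SS (f1 ξ) := by
  unfold SS
  congr 1
  funext p
  rw [map_f1, map_f2]

/-- the sum over the tuples and a pair of divisors, with a fixed tuple -/
lemma sum_fix (s : Fin 3 → ℕ) (hs : s ∈ Tup (Fin 3) z y) (F : ℕ × ℕ → ℝ) :
    ∑ d ∈ (∏ j, s j).divisors ×ˢ (∏ j, s j).divisors, F d =
      ∑ ξ ∈ univ.filter (fun ξ : Pr z y → Option (Fin 3 × (Bool × Bool)) => SS ξ = s),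
        F (D1 ξ, D2 ξ) := by
  classical
  have h := sum_big (J := Fin 3) (z := z) (y := y) (fun t d => if t = s then F d else 0)
  rw [sum_eq_single_of_mem s hs] at h
  · simp only [if_true] at h
    rw [h, sum_filter]
  · intro t _ ht
    apply sum_eq_zero
    intro d _
    rw [if_neg ht]

lemma sum_big2 (F : (Fin 3 → ℕ) → ℕ × ℕ → ℕ × ℕ → ℝ) :
    ∑ s ∈ Tup (Fin 3) z y, ∑ d ∈ (∏ j, s j).divisors ×ˢ (∏ j, s j).divisors,
      ∑ d' ∈ (∏ j, s j).divisors ×ˢ (∏ j, s j).divisors, F s d d' =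
      ∑ ξ : Pr z y → Option (Fin 3 × Bt), F (SS (f1 ξ)) (D1 (f1 ξ), D2 (f1 ξ))
        (D1 (f2 ξ), D2 (f2 ξ)) := by
  classical
  rw [sum_big fun s d => ∑ d' ∈ (∏ j, s j).divisors ×ˢ (∏ j, s j).divisors, F s d d']
  have h1 : ∀ ξ : Pr z y → Option (Fin 3 × (Bool × Bool)),
      ∑ d' ∈ (∏ j, SS ξ j).divisors ×ˢ (∏ j, SS ξ j).divisors, F (SS ξ) (D1 ξ, D2 ξ) d' =
        ∑ η ∈ univ.filter (fun η : Pr z y → Option (Fin 3 × (Bool × Bool)) => SS η = SS ξ),
          F (SS ξ) (D1 ξ, D2 ξ) (D1 η, D2 η) := fun ξ => sum_fix _ (Dl_mem _) _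
  rw [sum_congr rfl fun ξ _ => h1 ξ, sum_sigma']
  symm
  refine sum_bij (fun ξ _ => ⟨f1 ξ, f2 ξ⟩) ?_ ?_ ?_ (fun _ _ => rfl)
  · intro ξ _
    rw [mem_sigma, mem_filter]
    exact ⟨mem_univ _, mem_univ _, SS_f ξ⟩
  · intro ξ _ ξ' _ h
    have h1 : f1 ξ = f1 ξ' := congrArg Sigma.fst h
    have h2 : f2 ξ = f2 ξ' := congrArg Sigma.snd h
    funext p
    have e1 := congrFun h1 p
    have e2 := congrFun h2 p
    unfold f1 at e1
    unfold f2 at e2
    cases hx : ξ p with
    | none =>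
      cases hx' : ξ' p with
      | none => rfl
      | some a' => rw [hx, hx'] at e1; exact absurd e1 (by simp)
    | some a =>
      cases hx' : ξ' p with
      | none => rw [hx, hx'] at e1; exact absurd e1 (by simp)
      | some a' =>
        rw [hx, hx'] at e1 e2
        simp only [Option.map_some, Option.some.injEq, Prod.mk.injEq] at e1 e2
        rw [Option.some.injEq]
        exact Prod.ext e1.1 (Prod.ext e1.2 e2.2)
  · rintro ⟨ξ, η⟩ h
    rw [mem_sigma, mem_filter] at h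
    have hS : SS η = SS ξ := h.2.2
    have hm := Dl_inj hS
    refine ⟨fun p => (ξ p).bind fun a => (η p).map fun b => (a.1, (a.2, b.2)), mem_univ _, ?_⟩
    have e1 : f1 (fun p => (ξ p).bind fun a => (η p).map fun b => (a.1, (a.2, b.2))) = ξ := by
      funext p
      have hp := congrFun hm p
      show ((ξ p).bind fun a => (η p).map fun b => (a.1, (a.2, b.2))).map _ = ξ p
      cases hx : ξ p with
      | none => rfl
      | some a =>
        cases hy' : η p with
        | none => rw [hx, hy'] at hp; exact absurd hp (by simp)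
        | some b => rfl
    have e2 : f2 (fun p => (ξ p).bind fun a => (η p).map fun b => (a.1, (a.2, b.2))) = η := by
      funext p
      have hp := congrFun hm p
      show ((ξ p).bind fun a => (η p).map fun b => (a.1, (a.2, b.2))).map _ = η p
      cases hx : ξ p with
      | none =>
        cases hy' : η p with
        | none => rfl
        | some b => rw [hx, hy'] at hp; exact absurd hp (by simp)
      | some a =>
        cases hy' : η p with
        | none => rfl
        | some b =>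
          rw [hx, hy'] at hp
          have hp' : b.1 = a.1 := by simpa using hp
          show some (a.1, b.2) = some b
          rw [← hp']
    rw [e1, e2]

lemma NL_eq (s : Fin 3 → ℕ) (E : Finset ℕ) : (NL (∏ j, s j) (LR s E) : ℝ) =
      ∑ d ∈ (∏ j, s j).divisors ×ˢ (∏ j, s j).divisors,
        ∏ p ∈ (∏ j, s j).primeFactors, Il3 s d (decide (p ∈ E)) p := by
  unfold NL
  rw [Finset.card_filter]
  push_cast
  refine Finset.sum_congr rfl fun d _ => ?_
  unfold Il3
  rw [prod_ind]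
  unfold ind LR
  congr

lemma NR2_eq (s : Fin 3 → ℕ) :
    NR2 s = ∑ d ∈ (∏ j, s j).divisors ×ˢ (∏ j, s j).divisors,
      ∑ d' ∈ (∏ j, s j).divisors ×ˢ (∏ j, s j).divisors,
      ∏ p ∈ (∏ j, s j).primeFactors,
        (Il3 s d true p * Il3 s d' true p + Il3 s d false p * Il3 s d' false p) / 2 := by
  classical
  unfold NR2
  have h1 : ∀ E : Finset ℕ, (NL (∏ j, s j) (LR s E) : ℝ) ^ 2 =
      ∑ d ∈ (∏ j, s j).divisors ×ˢ (∏ j, s j).divisors,
      ∑ d' ∈ (∏ j, s j).divisors ×ˢ (∏ j, s j).divisors,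
        ∏ p ∈ (∏ j, s j).primeFactors,
          (Il3 s d (decide (p ∈ E)) p * Il3 s d' (decide (p ∈ E)) p) := by
    intro E
    rw [NL_eq, pow_two, sum_mul_sum]
    refine sum_congr rfl fun d _ => sum_congr rfl fun d' _ => ?_
    rw [prod_mul_distrib]
  rw [Finset.sum_congr rfl fun E _ => h1 E, Finset.sum_comm, Finset.mul_sum]
  refine Finset.sum_congr rfl fun d _ => ?_
  rw [Finset.sum_comm, Finset.mul_sum]
  refine Finset.sum_congr rfl fun d' _ => ?_
  exact avg _ (∏ j, s j).primeFactors (Finset.Subset.refl _)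
    (fun e p => Il3 s d e p * Il3 s d' e p) fun p hp hpA => absurd hp hpA

/-- the symbol of a character -/
noncomputable def ch (x : Bool × Bool) (h g : Bool) : ℝ :=
  (if x.1 = true then sg h else 1) * (if x.2 = true then sg g else 1)

/-- one copy -/
lemma loc1 (c : Fin 3) (e : Bool) (v : Bool × Bool) (h g : Bool) :
    ind (LC c e v.1 v.2 h g) = ∑ x : Bool × Bool, if A1 c v x = true then
      (1 / 2 : ℝ) * (if e = true ∧ pr v x = true then -1 else 1) * ch x h g else 0 := by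
  obtain ⟨v1, v2⟩ := v
  simp only [Fintype.sum_prod_type, Fintype.sum_bool]
  fin_cases c <;> cases e <;> cases v1 <;> cases v2 <;> cases h <;> cases g <;>
    simp [A1, ec, pr, LC, ind, sg, ch] <;> norm_num

/-- the local identity -/
lemma loc_id6 (c : Fin 3) (v : Bt) (h g h' g' : Bool) :
    (ind (LC c true v.1.1 v.1.2 h g) * ind (LC c true v.2.1 v.2.2 h' g') +
      ind (LC c false v.1.1 v.1.2 h g) * ind (LC c false v.2.1 v.2.2 h' g')) / 2 =
      ∑ x : Bt, if A6 c v x = true then (1 / 4 : ℝ) * (ch x.1 h g * ch x.2 h' g') else 0 := by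
  rw [loc1 c true v.1 h g, loc1 c true v.2 h' g', loc1 c false v.1 h g, loc1 c false v.2 h' g',
    Finset.sum_mul_sum, Finset.sum_mul_sum, ← Finset.sum_add_distrib, Finset.sum_div]
  refine Eq.trans ?_ (Fintype.sum_prod_type (fun x : Bt => if A6 c v x = true then
    (1 / 4 : ℝ) * (ch x.1 h g * ch x.2 h' g') else 0)).symm
  refine Finset.sum_congr rfl fun x _ => ?_
  rw [← Finset.sum_add_distrib, Finset.sum_div]
  refine Finset.sum_congr rfl fun x' _ => ?_
  unfold A6
  cases h1 : A1 c v.1 x <;> cases h2 : A1 c v.2 x' <;> cases h3 : pr v.1 x <;>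
    cases h4 : pr v.2 x' <;> simp [h1, h2, h3, h4] <;> ring

/-- the local term -/
noncomputable def Tm6 (c : ℕ) (ξ : Pr z y → Option (Fin 3 × Bt)) (p : Pr z y) : ℝ :=
  (ξ p).elim 1 fun a => 1 / ((p : ℝ) - c) *
    ((ind (LC a.1 true a.2.1.1 a.2.1.2 (sgn p (D1 (f1 ξ))) (sgn p (D2 (f1 ξ)))) *
      ind (LC a.1 true a.2.2.1 a.2.2.2 (sgn p (D1 (f2 ξ))) (sgn p (D2 (f2 ξ)))) +
      ind (LC a.1 false a.2.1.1 a.2.1.2 (sgn p (D1 (f1 ξ))) (sgn p (D2 (f1 ξ)))) *
      ind (LC a.1 false a.2.2.1 a.2.2.2 (sgn p (D1 (f2 ξ))) (sgn p (D2 (f2 ξ))))) / 2)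

/-- the local indicator at a point of the index set -/
lemma Il3_at (ξ : Pr z y → Option (Fin 3 × (Bool × Bool))) (p : Pr z y) (e : Bool)
    (a : Fin 3 × (Bool × Bool)) (hx : ξ p = some a) :
    Il3 (SS ξ) (D1 ξ, D2 ξ) e p =
        ind (LC a.1 e a.2.1 a.2.2 (sgn p (D1 ξ)) (sgn p (D2 ξ))) := by
  unfold Il3
  have e1 : dv p (D1 ξ : ℤ) = a.2.1 := by
    have : b1 (ξ p) = a.2.1 := by rw [hx]; rfl
    rw [← this]
    unfold dv
    rw [Bool.eq_iff_iff, decide_eq_true_iff, Int.natCast_dvd_natCast]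
    exact dvd_nb _ p
  have e2 : dv p (D2 ξ : ℤ) = a.2.2 := by
    have : b2 (ξ p) = a.2.2 := by rw [hx]; rfl
    rw [← this]
    unfold dv
    rw [Bool.eq_iff_iff, decide_eq_true_iff, Int.natCast_dvd_natCast]
    exact dvd_nb _ p
  have e3 : ∀ j, (p : ℕ) ∣ SS ξ j ↔ j = a.1 := by
    intro j
    unfold SS Dl
    rw [dvd_nb, decide_eq_true_iff]
    show (ξ p).map Prod.fst = some j ↔ j = a.1
    rw [hx]
    simp [eq_comm]
  congr 1
  simp only [e1, e2, e3, forall_eq]

lemma lhs_eq6 (c : ℕ) :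
    ∑ s ∈ Tup (Fin 3) z y, NR2 s * ∏ j, gw 1 c (s j) =
      ∑ ξ : Pr z y → Option (Fin 3 × Bt), ∏ p, Tm6 c ξ p := by
  have h1 : ∀ s ∈ Tup (Fin 3) z y, NR2 s * ∏ j, gw 1 c (s j) =
      ∑ d ∈ (∏ j, s j).divisors ×ˢ (∏ j, s j).divisors,
      ∑ d' ∈ (∏ j, s j).divisors ×ˢ (∏ j, s j).divisors,
        (∏ p ∈ (∏ j, s j).primeFactors,
          (Il3 s d true p * Il3 s d' true p + Il3 s d false p * Il3 s d' false p) / 2) *
          ∏ j, gw 1 c (s j) := by
    intro s hs
    rw [NR2_eq, Finset.sum_mul]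
    refine sum_congr rfl fun d _ => ?_
    rw [Finset.sum_mul]
  rw [Finset.sum_congr rfl h1, sum_big2 fun s d d' =>
    (∏ p ∈ (∏ j, s j).primeFactors,
      (Il3 s d true p * Il3 s d' true p + Il3 s d false p * Il3 s d' false p) / 2) *
          ∏ j, gw 1 c (s j)]
  refine Finset.sum_congr rfl fun ξ _ => ?_
  have h2 : ∏ j, gw 1 c (SS (f1 ξ) j) = ∏ p : Pr z y, ((f1 ξ p).map Prod.fst).elim 1
      fun _ => 1 / ((p : ℝ) - c) := prod_gw (fun _ => 1) c _
  have h3 : ∏ j, SS (f1 ξ) j = nb fun p => ((f1 ξ p).map Prod.fst).isSome := prod_Dl _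
  rw [h2, h3, prod_pf _ fun p =>
    (Il3 (SS (f1 ξ)) (D1 (f1 ξ), D2 (f1 ξ)) true p * Il3 (SS (f1 ξ)) (D1 (f2 ξ), D2 (f2 ξ)) true p +
    Il3 (SS (f1 ξ)) (D1 (f1 ξ), D2 (f1 ξ)) false p *
      Il3 (SS (f1 ξ)) (D1 (f2 ξ), D2 (f2 ξ)) false p) / 2, ← Finset.prod_mul_distrib]
  refine Finset.prod_congr rfl fun p _ => ?_
  unfold Tm6
  rw [map_f1]
  cases hx : ξ p with
  | none => simp
  | some a =>
    have g1 : f1 ξ p = some (a.1, a.2.1) := by unfold f1; rw [hx]; rfl
    have g2 : f2 ξ p = some (a.1, a.2.2) := by unfold f2; rw [hx]; rfl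
    have h4 := fun e => Il3_at (f1 ξ) p e _ g1
    have h5 := fun e => Il3_at (f2 ξ) p e _ g2
    rw [SS_f] at h5
    simp only [h4, h5]
    simp only [Option.map_some, Option.isSome_some, if_true, Option.elim]
    ring

lemma sum_I6 (F : Fin 3 × Bt × Bt → ℝ) :
    ∑ i : I6, F i.1 = ∑ r, if A6 r.1 r.2.1 r.2.2 = true then F r else 0 := by
  rw [← Finset.sum_filter]
  exact (Finset.sum_subtype (univ.filter fun r : Fin 3 × Bt × Bt =>
    A6 r.1 r.2.1 r.2.2 = true) (fun x => by simp) F).symm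

/-- forget the character -/
def fg6 (x : Option I6) : Option (Fin 3 × Bt) :=
  x.map fun i => (i.1.1, i.1.2.1)

/-- the local factor -/
noncomputable def G6 (c : ℕ) (ξ : Pr z y → Option (Fin 3 × Bt)) (p : Pr z y)
    (x : Option I6) : ℝ :=
  x.elim 1 fun i => 1 / ((p : ℝ) - c) * ((1 / 4 : ℝ) *
    (ch i.1.2.2.1 (sgn p (D1 (f1 ξ))) (sgn p (D2 (f1 ξ))) *
      ch i.1.2.2.2 (sgn p (D1 (f2 ξ))) (sgn p (D2 (f2 ξ)))))

lemma sum_G6 (c : ℕ) (ξ : Pr z y → Option (Fin 3 × Bt)) (p : Pr z y) :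
    ∑ x ∈ univ.filter (fun x : Option I6 => fg6 x = ξ p), G6 c ξ p x = Tm6 c ξ p := by
  rw [Finset.sum_filter, Fintype.sum_option]
  unfold Tm6
  cases hx : ξ p with
  | none => simp [fg6, G6]
  | some a =>
    obtain ⟨j, v⟩ := a
    have h0 : (if fg6 (none : Option I6) = some (j, v) then G6 c ξ p none else 0) = 0 := by
      rw [if_neg]
      simp [fg6]
    rw [h0, zero_add]
    set F : Fin 3 × Bt × Bt → ℝ :=
      fun r : Fin 3 × Bt × Bt =>
          if r.1 = j ∧ r.2.1 = v then 1 / ((p : ℝ) - c) * ((1 / 4 : ℝ) *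
            (ch r.2.2.1 (sgn p (D1 (f1 ξ))) (sgn p (D2 (f1 ξ))) *
      ch r.2.2.2 (sgn p (D1 (f2 ξ))) (sgn p (D2 (f2 ξ))))) else 0 with hF
    have h1 : ∀ i : I6, (if fg6 (some i) = some (j, v) then G6 c ξ p (some i) else 0) =
        F i.1 := by
      intro i
      refine if_congr ?_ rfl rfl
      simp only [fg6, Option.map_some, Option.some.injEq, Prod.mk.injEq]
    refine (Finset.sum_congr rfl fun i _ => h1 i).trans ((sum_I6 F).trans ?_)
    rw [Fintype.sum_prod_type, Finset.sum_eq_single j]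
    · rw [Fintype.sum_prod_type, Finset.sum_eq_single v]
      · show _ = 1 / ((p : ℝ) - c) * _
        rw [loc_id6 j v, Finset.mul_sum]
        refine Finset.sum_congr rfl fun x _ => ?_
        simp only [hF, and_self, if_true, mul_ite, mul_zero]
      · intro v' _ hv'
        refine Finset.sum_eq_zero fun x _ => ?_
        simp [hF, hv']
      · intro h
        exact absurd (Finset.mem_univ _) h
    · intro j' _ hj'
      refine Finset.sum_eq_zero fun x _ => ?_
      simp [hF, hj']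
    · intro h
      exact absurd (Finset.mem_univ _) h

lemma A1_orth : ∀ (c : Fin 3) (v x : Bool × Bool), A1 c v x = true → br x v = false := by
  decide

lemma A6_orth (c : Fin 3) (v x : Bt) (h : A6 c v x = true) :
    br x.1 v.1 = false ∧ br x.2 v.2 = false := by
  unfold A6 at h
  rw [Bool.and_eq_true, Bool.and_eq_true] at h
  exact ⟨A1_orth c _ _ h.1.1, A1_orth c _ _ h.1.2⟩

lemma L6_self (i : I6) : L6 i i = false := by
  unfold L6
  have h := A6_orth _ _ _ i.2
  rw [h.1, h.2]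
  rfl

/-- one copy of the symbols -/
lemma ch_prod (ξ : Pr z y → Option (Fin 3 × (Bool × Bool))) (p : Pr z y) (x : Bool × Bool)
    (h : ∀ q, q = p → br x (b1 (ξ q), b2 (ξ q)) = false) :
    ch x (sgn p (D1 ξ)) (sgn p (D2 ξ)) =
      ∏ q : Pr z y, (if br x (b1 (ξ q), b2 (ξ q)) = true then Jr (q : ℕ) p else 1) := by
  have h3 : ∀ a : Bool, ∀ b : Pr z y → Bool, (if a = true then sg (sgn p (nb b : ℤ)) else 1) =
      ∏ q : Pr z y, if a = true then (if q ≠ p ∧ b q = true then Jr (q : ℕ) p else 1)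
        else 1 := by
    intro a b
    cases a
    · simp
    · simp only [if_true]
      exact sgn_nb b p
  unfold ch D1 D2
  rw [h3, h3, ← Finset.prod_mul_distrib]
  refine Finset.prod_congr rfl fun q _ => ?_
  unfold br
  rw [bits_eq q p x.1 x.2 _ _ fun hqp => by
    have := h q hqp
    unfold br at this
    exact this]

lemma jr_xor (q p : Pr z y) (a b : Bool) (h : q = p → a = false ∧ b = false) :
    (if xor a b = true then Jr (q : ℕ) p else 1) =
      (if a = true then Jr (q : ℕ) p else 1) * (if b = true then Jr (q : ℕ) p else 1) := by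
  by_cases hqp : q = p
  · rw [(h hqp).1, (h hqp).2]
    simp
  · have hJ : Jr (q : ℕ) p * Jr (q : ℕ) p = 1 := by
      have hnd : ¬ ((p : ℕ) : ℤ) ∣ ((q : ℕ) : ℤ) := by
        rw [Int.natCast_dvd_natCast]
        intro hd
        exact hqp (Subtype.ext ((Nat.prime_dvd_prime_iff_eq (Pr_prime p) (Pr_prime q)).1 hd).symm)
      rw [← sg_sg0 (Pr_prime p) hnd]
      unfold sg
      split_ifs <;> norm_num
    cases a <;> cases b <;> simp [hJ]

lemma rhs_term6 (c : ℕ) (ξ : Pr z y → Option (Fin 3 × Bt)) (l : Pr z y → Option I6)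
    (h : ∀ p, fg6 (l p) = ξ p) :
    (∏ i, gw (1 / 4) c (Dl l i)) * Pool.Agent.W262.RK.Sym L6 (fun _ => 1) (Dl l) =
      ∏ p, G6 c ξ p (l p) := by
  rw [prod_gw (fun _ => (1 / 4 : ℝ)), Sym_Dl, ← Finset.prod_mul_distrib, ← Finset.prod_mul_distrib]
  refine Finset.prod_congr rfl fun p _ => ?_
  cases hl : l p with
  | none =>
    have h0 : ∀ q, lk L6 (l q) none = false := by
      intro q
      cases l q <;> rfl
    simp [h0, G6]
  | some i =>
    have hAl := A6_orth _ _ _ i.2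
    have h1 : ∀ q, lk L6 (l q) (some i) =
        xor (br i.1.2.2.1 (b1 (f1 ξ q), b2 (f1 ξ q))) (br i.1.2.2.2 (b1 (f2 ξ q), b2 (f2 ξ q))) := by
      intro q
      have hq2 : f1 ξ q = (fg6 (l q)).map (fun a => (a.1, a.2.1)) := by
        unfold f1
        rw [h q]
      have hq3 : f2 ξ q = (fg6 (l q)).map (fun a => (a.1, a.2.2)) := by
        unfold f2
        rw [h q]
      rw [hq2, hq3]
      cases hq : l q with
      | none =>
        show false = xor (br i.1.2.2.1 (false, false)) (br i.1.2.2.2 (false, false))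
        simp [br]
      | some i' => rfl
    have hp1 : f1 ξ p = some (i.1.1, i.1.2.1.1) := by
      unfold f1
      rw [← h p, hl]
      rfl
    have hp2 : f2 ξ p = some (i.1.1, i.1.2.1.2) := by
      unfold f2
      rw [← h p, hl]
      rfl
    have o1 : ∀ q, q = p → br i.1.2.2.1 (b1 (f1 ξ q), b2 (f1 ξ q)) = false := by
      rintro q rfl
      rw [hp1]
      exact hAl.1
    have o2 : ∀ q, q = p → br i.1.2.2.2 (b1 (f2 ξ q), b2 (f2 ξ q)) = false := by
      rintro q rfl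
      rw [hp2]
      exact hAl.2
    have h2 : ∏ q : Pr z y, (if lk L6 (l q) (some i) = true then Jr (q : ℕ) p else 1) =
        ch i.1.2.2.1 (sgn p (D1 (f1 ξ))) (sgn p (D2 (f1 ξ))) *
      ch i.1.2.2.2 (sgn p (D1 (f2 ξ))) (sgn p (D2 (f2 ξ))) := by
      rw [ch_prod _ _ _ o1, ch_prod _ _ _ o2, ← Finset.prod_mul_distrib]
      refine Finset.prod_congr rfl fun q _ => ?_
      rw [h1]
      exact jr_xor q p _ _ fun hqp => ⟨o1 q hqp, o2 q hqp⟩
    rw [h2]
    simp only [G6, Option.elim, Jr_one_left]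
    ring

theorem exp6 (c z y : ℕ) : ∑ s ∈ Tup (Fin 3) z y, NR2 s * ∏ j, gw 1 c (s j) =
    ∑ d ∈ Tup I6 z y, (∏ i, gw (1 / 4) c (d i)) * Pool.Agent.W262.RK.Sym L6 (fun _ => 1) d := by
  classical
  rw [lhs_eq6, sum_Tup, ← Finset.sum_fiberwise univ
    (fun (l : Pr z y → Option I6) => fun p => fg6 (l p))]
  refine Finset.sum_congr rfl fun ξ _ => ?_
  have h1 : (univ.filter fun l : Pr z y → Option I6 => (fun p => fg6 (l p)) = ξ) =
      Fintype.piFinset (fun p => univ.filter (fun x : Option I6 => fg6 x = ξ p)) := by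
    ext l
    simp only [Finset.mem_filter, Finset.mem_univ, true_and, Fintype.mem_piFinset, funext_iff]
  rw [h1, Finset.prod_congr rfl fun p _ => (sum_G6 c ξ p).symm, Finset.prod_univ_sum]
  refine Finset.sum_congr rfl fun l hl => ?_
  rw [Fintype.mem_piFinset] at hl
  exact (rhs_term6 c ξ l fun p => (Finset.mem_filter.1 (hl p)).2).symm

/-- **MAR2** -/
theorem mar2_of (hc : COMB6) : MAR2 := by
  intro c
  obtain ⟨z0, hz0⟩ := at_thm I6 (fun _ => 1 / 4) L6 (fun _ => 1) c (3 : ℝ)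
    (fun _ => by norm_num) L6_self (fun _ => one_ne_zero) (fun U hU => by
      rw [sum_const, nsmul_eq_mul]
      have := hc U hU
      have h2 : (U.card : ℝ) ≤ 12 := by exact_mod_cast this
      linarith)
  refine ⟨z0, fun z hz => ?_⟩
  obtain ⟨C, hC⟩ := hz0 z hz
  refine ⟨C, fun y hy => ?_⟩
  rw [exp6]
  refine (le_trans (le_abs_self _) (hC y hy)).trans (le_of_eq ?_)
  rw [show (3 : ℝ) = ((3 : ℕ) : ℝ) by norm_num, Real.rpow_natCast]

end Pool.Agent.K6.H34.TQ
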