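import Pool.Agent.K6.H34.TT.Sub
import Pool.Agent.K6.H34.TQ.Stm

/-!
# Project TQ, part SUBR2

Adapted from `Pool.Agent.K6.H34.TT.Sub`.
-/

set_option autoImplicit false

namespace Pool.Agent.K6.H34.TQ

open Finset Pool.Agent.W262.RK Pool.Agent.W125.RK2 Pool.Agent.K6.H34.TT

/-- **SUBR2** -/
theorem subr2 : SUBR2 := by
  classical
  intro z y hz s e hT
  have hT' : (∀ j, s j * e j ∈ (PP z y).divisors) ∧
      ∀ i j, i ≠ j → (s i * e i).Coprime (s j * e j) := by
    obtain ⟨h1, h2⟩ := Pool.Agent.W108.RK.mem_Tup.1 hT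
    exact ⟨fun j => Nat.mem_divisors.2 ⟨h1 j, PP_ne_zero z y⟩, h2⟩
  have hsqj : ∀ j, Squarefree (s j * e j) := fun j => dv_squarefree (hT'.1 j)
  have hsq : ∀ U : Finset (Fin 3), Squarefree (∏ j ∈ U, (s j * e j)) := by
    intro U
    apply Finset.squarefree_prod_of_pairwise_isCoprime
    · intro i _ j _ hij
      exact Nat.coprime_iff_isRelPrime.1 (hT'.2 i j hij)
    · intro j _
      exact hsqj j
  have hsq2 : ∀ U : Finset (Fin 3), Squarefree ((∏ j ∈ U, s j) * ∏ j ∈ U, e j) := by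
    intro U
    rw [← Finset.prod_mul_distrib]
    exact hsq U
  have hs0 : ∀ j, s j ≠ 0 := fun j => left_ne_zero_of_mul (hsqj j).ne_zero
  have he0 : ∀ j, e j ≠ 0 := fun j => right_ne_zero_of_mul (hsqj j).ne_zero
  have hprod : ∏ j, (s j * e j) = (∏ j, s j) * ∏ j, e j := Finset.prod_mul_distrib
  have hme : Squarefree ((∏ j, s j) * ∏ j, e j) := hsq2 univ
  set P := (∏ j, s j).primeFactors with hP
  set Q := (∏ j, e j).primeFactors with hQ
  have hPQ : Disjoint P Q := (Nat.coprime_of_squarefree_mul hme).disjoint_primeFactors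
  have hPU : (∏ j, (s j * e j)).primeFactors = P ∪ Q := by
    rw [hprod]
    exact Nat.primeFactors_mul (prod_ne_zero_iff.2 fun j _ => hs0 j)
      (prod_ne_zero_iff.2 fun j _ => he0 j)
  have hpr : ∀ p : ℕ, p.Prime → p ∣ ∏ j, s j → ∃ j0, p ∣ s j0 := by
    intro p hp h
    obtain ⟨j0, _, hj0⟩ := (hp.prime.dvd_finsetProd_iff _).1 h
    exact ⟨j0, hj0⟩
  have hiff : ∀ p : ℕ, p.Prime → p ∣ ∏ j, s j → ∀ j, p ∣ s j * e j ↔ p ∣ s j := by
    intro p hp h j
    constructor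
    · intro hj
      obtain ⟨j0, hj0⟩ := hpr p hp h
      by_cases hjj : j = j0
      · rw [hjj]
        exact hj0
      · exfalso
        have h1 := hT'.2 j j0 hjj
        have h2 : p ∣ (s j * e j).gcd (s j0 * e j0) := Nat.dvd_gcd hj (hj0.trans (Dvd.intro _ rfl))
        rw [h1.gcd_eq_one] at h2
        exact hp.one_lt.ne' (Nat.dvd_one.1 h2)
    · intro hj
      exact hj.trans (Dvd.intro _ rfl)
  have hNL : ∀ E : Finset ℕ, NL (∏ j, s j) (LR (fun j => s j * e j) E) =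
      NL (∏ j, s j) (LR s (E ∩ P)) := by
    intro E
    apply NL_congr
    intro p hp
    have hpp := Nat.prime_of_mem_primeFactors hp
    have hpd := Nat.dvd_of_mem_primeFactors hp
    funext v w h g
    unfold LR
    apply propext
    apply forall_congr'
    intro j
    rw [hiff p hpp hpd j]
    apply imp_congr_right
    intro hj
    have : (p ∈ E ∩ P) ↔ p ∈ E := by
      rw [mem_inter]
      exact ⟨fun h => h.1, fun h => ⟨h, hp⟩⟩
    simp only [this]
  have hω : Q.card ≤ ∑ j, (e j).primeFactors.card := by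
    have h1 : Q ⊆ univ.biUnion (fun j => (e j).primeFactors) := by
      intro p hp
      rw [mem_biUnion]
      have hpp := Nat.prime_of_mem_primeFactors hp
      obtain ⟨j, _, hj⟩ := (hpp.prime.dvd_finsetProd_iff _).1 (Nat.dvd_of_mem_primeFactors hp)
      exact ⟨j, mem_univ _, Nat.mem_primeFactors.2 ⟨hpp, hj, he0 j⟩⟩
    exact (Finset.card_le_card h1).trans card_biUnion_le
  have hstep : ∀ E : Finset ℕ, (NL (∏ j, (s j * e j)) (LR (fun j => s j * e j) E) : ℝ) ≤
      4 ^ (∑ j, (e j).primeFactors.card) * (NL (∏ j, s j) (LR s (E ∩ P)) : ℝ) := by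
    intro E
    have h1 := sub4 (∏ j, s j) (∏ j, e j) (LR (fun j => s j * e j) E) hme
      (fun p _ _ => xc_LR _ E p)
    rw [hNL E] at h1
    rw [hprod]
    have h2 : (NL ((∏ j, s j) * ∏ j, e j) (LR (fun j => s j * e j) E) : ℝ) ≤
        4 ^ (∏ j, e j).primeFactors.card * (NL (∏ j, s j) (LR s (E ∩ P)) : ℝ) := by
      exact_mod_cast h1
    refine h2.trans ?_
    apply mul_le_mul_of_nonneg_right _ (Nat.cast_nonneg _)
    exact pow_le_pow_right₀ (by norm_num) hω
  have hsq2' : ∀ E : Finset ℕ, (NL (∏ j, (s j * e j)) (LR (fun j => s j * e j) E) : ℝ) ^ 2 ≤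
      16 ^ (∑ j, (e j).primeFactors.card) * (NL (∏ j, s j) (LR s (E ∩ P)) : ℝ) ^ 2 := by
    intro E
    have h1 := pow_le_pow_left₀ (Nat.cast_nonneg _) (hstep E) 2
    rw [mul_pow, ← pow_mul, mul_comm _ 2, pow_mul] at h1
    norm_num at h1
    exact h1
  unfold NR2
  rw [hPU, ← hP, card_union_of_disjoint hPQ]
  calc (1 / 2 : ℝ) ^ (P.card + Q.card) *
      ∑ E ∈ (P ∪ Q).powerset, (NL (∏ j, (s j * e j)) (LR (fun j => s j * e j) E) : ℝ) ^ 2 ≤
      (1 / 2 : ℝ) ^ (P.card + Q.card) * ∑ E ∈ (P ∪ Q).powerset,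
        16 ^ (∑ j, (e j).primeFactors.card) * (NL (∏ j, s j) (LR s (E ∩ P)) : ℝ) ^ 2 := by
        apply mul_le_mul_of_nonneg_left _ (by positivity)
        exact Finset.sum_le_sum fun E _ => hsq2' E
    _ = 16 ^ (∑ j, (e j).primeFactors.card) * ((1 / 2 : ℝ) ^ P.card *
        ∑ E ∈ P.powerset, (NL (∏ j, s j) (LR s E) : ℝ) ^ 2) := by
        rw [← Finset.mul_sum, sum_inter P Q hPQ (fun E => (NL (∏ j, s j) (LR s E) : ℝ) ^ 2),
          pow_add]
        have h2 : (1 / 2 : ℝ) ^ Q.card * 2 ^ Q.card = 1 := by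
          rw [← mul_pow]
          norm_num
        linear_combination (16 ^ (∑ j, (e j).primeFactors.card) * ((1 / 2 : ℝ) ^ P.card *
          ∑ E ∈ P.powerset, (NL (∏ j, s j) (LR s E) : ℝ) ^ 2)) * h2

end Pool.Agent.K6.H34.TQ
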