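import Pool.Agent.K6.H34.TT.Mar
import Pool.Agent.K6.H34.TQ.Mar
import Pool.Agent.K6.H34.TQ.Sub
import Pool.Agent.K6.H34.TQ.Avg
import Pool.Agent.K6.H34.TQ.Fin
import Pool.Agent.K6.H38.TT.Cntr
import Pool.Agent.K6.H43.TT.SGN
import Pool.Agent.K6.H43.TT.AVHR
import Pool.Agent.K6.H5.TT.Omg
import Pool.Agent.K6.H5.TT.Low2
import Pool.Agent.K6.H35.TT.PAR2
import Pool.Agent.K6.H59.TT.Torx
import Pool.Agent.K6.H84.TT.LowX
import Pool.Agent.K6.H43.TQ.Ant16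
import Pool.Agent.K6.H43.TQ.Comb6
import Pool.Agent.K6.H84.TQ.Box2
import Pool.Agent.W340.RT.SVR2

/-!
# Project TQ: assembly
-/

set_option autoImplicit false

namespace Pool.Agent.K6.H34.TQ

open Finset Filter Pool.Agent.W307.RT Pool.Agent.K6.H34.TT

theorem cntr : CNTR :=
  Pool.Agent.K6.H38.TT.cntr_of Pool.Agent.W340.RT.SVR2.svr2 Pool.Agent.K6.H43.TT.avhr
    Pool.Agent.K6.H43.TT.sgn

theorem box2 : BOX2 :=
  Pool.Agent.K6.H84.TQ.box2_of (avgr2_of cntr Pool.Agent.K6.H5.TT.omg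
    Pool.Agent.K6.H43.TQ.ant16 (mar2_of Pool.Agent.K6.H43.TQ.comb6) subr2 rankr)
      Pool.Agent.K6.H5.TT.omg

/-- the average over all the curves with full 2-torsion -/
theorem main2 : ∃ C : ℝ, ∀ H : ℕ, ∑ c ∈ Fam H,
    (4 : ℝ) ^ Module.finrank ℤ (E c.1 c.2).toAffine.Point ≤ C * (Fam H).card :=
  final2_of Pool.Agent.K6.H35.TT.par2 box2 (fun _ => Finset.Subset.refl _)
    Pool.Agent.K6.H5.TT.low2

/-- the average over the curves with torsion group `Z/2 x Z/2` -/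
theorem mainX : ∃ C : ℝ, ∀ H : ℕ, ∑ c ∈ FamX H,
    (4 : ℝ) ^ Module.finrank ℤ (E c.1 c.2).toAffine.Point ≤ C * (FamX H).card :=
  final2_of Pool.Agent.K6.H35.TT.par2 box2 famX_sub
    (Pool.Agent.K6.H84.TT.lowx_of Pool.Agent.K6.H59.TT.torx)

theorem cardX : Tendsto (fun H : ℕ => (FamX H).card) atTop atTop :=
  tendsto_of_lows (Pool.Agent.K6.H84.TT.lowx_of Pool.Agent.K6.H59.TT.torx)

end Pool.Agent.K6.H34.TQ
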